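import Pool.Agent.R866.SatC6Fin

/-!
# MP_7874c9_co: copies of `C₄` in `C₆`-saturated graphs

For every sufficiently large `n` there is a `C₆`-saturated graph on `n` vertices without any
4-cycle, so `sat(n, C₄, C₆) > 0` holds for only finitely many `n`.
-/

namespace Pool.Agent.Results.MP_7874c9_co.EventuallyZero

open SimpleGraph

/-- `G` is `H`-saturated: it contains no copy of `H`, but adding any missing edge creates one. -/
def IsSaturated {W V : Type*} (H : SimpleGraph W) (G : SimpleGraph V) : Prop :=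
  ¬ (H ⊑ G) ∧ ∀ u v : V, u ≠ v → ¬ G.Adj u v → H ⊑ G ⊔ edge u v

/-- The minimum number of (labelled) copies of `H` over the `K`-saturated graphs on `n`
vertices. -/
noncomputable def sat {h k : ℕ} (n : ℕ) (H : SimpleGraph (Fin h)) (K : SimpleGraph (Fin k)) : ℕ :=
  sInf {m : ℕ | ∃ G : SimpleGraph (Fin n), IsSaturated K G ∧ m = Nat.card (Copy H G)}

theorem result :
    (∃ n₀ : ℕ, ∀ n ≥ n₀, ∃ G : SimpleGraph (Fin n),
      IsSaturated (cycleGraph 6) G ∧ ¬ (cycleGraph 4 ⊑ G)) ∧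
    ¬ {n : ℕ | 0 < sat n (cycleGraph 4) (cycleGraph 6)}.Infinite := by
  obtain ⟨n₀, hn₀⟩ := Pool.Agent.R866.SatC6.good_eventually
  have key : ∀ n ≥ n₀, ∃ G : SimpleGraph (Fin n),
      IsSaturated (cycleGraph 6) G ∧ ¬ (cycleGraph 4 ⊑ G) := by
    intro n hn
    obtain ⟨G, h1, h2, h3⟩ := hn₀ n hn
    exact ⟨G, ⟨h1, h2⟩, h3⟩
  refine ⟨⟨n₀, key⟩, ?_⟩
  rw [Set.not_infinite]
  refine (Set.finite_lt_nat n₀).subset ?_
  intro n hn
  by_contra hcon
  have hn' : n ≥ n₀ := by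
    have : ¬ n < n₀ := hcon
    omega
  obtain ⟨G, hG, hC4⟩ := key n hn'
  have h0 : (0 : ℕ) ∈ {m : ℕ | ∃ G : SimpleGraph (Fin n), IsSaturated (cycleGraph 6) G ∧
      m = Nat.card (Copy (cycleGraph 4) G)} := by
    refine ⟨G, hG, ?_⟩
    have : IsEmpty (Copy (cycleGraph 4) G) := not_nonempty_iff.mp hC4
    rw [Nat.card_of_isEmpty]
  have h1 : sat n (cycleGraph 4) (cycleGraph 6) ≤ 0 := Nat.sInf_le h0
  have h2 : 0 < sat n (cycleGraph 4) (cycleGraph 6) := hn
  omega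

end Pool.Agent.Results.MP_7874c9_co.EventuallyZero
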